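import Mathlib
import Pool.Agent.TH538.AT.Main

/-!
# The parabolic and the normalizer generating sets of an Artin-Tits group are not equivalent

Let `A` be an irreducible Artin-Tits group of spherical type and of rank at least three (of any type,
type `A_n` included). The identity map from `A` with the word metric of `X_P` to `A` with the word
metric of `X_NP` is not a quasi-isometry; equivalently the distances `d_{X_P}(1, g)`, `g ∈ X_NP`, are
unbounded.

Idea of the proof. The reflection representation of the Hecke algebra at a unimodular parameter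
`u² = e^{2 i φ}` preserves the form `B = 2 cos φ · I - (2 cos (π / m_{s,t}))`. By the
Perron-Frobenius theorem there is `φ` such that `B` is indefinite, but positive definite on every
proper coordinate subspace. Then all proper standard parabolic subgroups, and `Δ²`, have bounded
images. The centralizer of a generator `s` has unbounded image: otherwise minimize `B(v, v)` on the
compact convex set of vectors whose orbit under the centralizer lies in the unit ball; averaging a
minimizer `v` with its images under `s` and under the central elements `(s t)^{m_{s,t}}` of the rank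
two parabolic subgroups shows `B(e_t, v) = 0` for all `t`, so `B(v, v) = 0`, a contradiction.
-/

set_option autoImplicit false

namespace Pool.Agent.Results.MP_5d3202_gt.ParabolicsVsNormalizers

open Pool.Agent.Helper741 Pool.Agent.TH538.AT

/-- Sanity check: in spherical type there is exactly one Garside element. -/
theorem existsUnique_garside {S : Type*} [Fintype S] (M : CoxeterMatrix S) [Finite M.Group] :
    ∃! d, IsGarside M d := by
  classical
  set cs := M.toCoxeterSystem with hcs
  obtain ⟨w₀, h⟩ := exists_longest cs
  refine ⟨((rword cs w₀).map (Artin.gen M)).prod,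
    ⟨rword cs w₀, rword_reduced cs w₀, fun w => by rw [← hcs, rword_prod]; exact h w, rfl⟩, ?_⟩
  rintro _ ⟨ω, hred, hmax, rfl⟩
  have h1 := longest_mul h (cs.wordProd ω)
  have h2 : cs.length w₀ ≤ cs.length (cs.wordProd ω) := hmax w₀
  have h3 := h (cs.wordProd ω)
  have h4 : cs.length (w₀ * cs.wordProd ω) = 0 := by omega
  rw [cs.length_eq_zero_iff] at h4
  have h5 : cs.wordProd ω = w₀ := by
    have h6 := longest_sq h
    exact mul_left_cancel (h4.trans h6.symm)
  apply matsumoto cs (Artin.gen M) (fun i j => Artin.rel i j) _ _ hred (rword_reduced cs w₀)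
  rw [rword_prod, h5]

/-- **Main theorem.** For every irreducible Artin-Tits group `A` of spherical type of rank at least
`3`: the identity map `(A, d_{X_P}) → (A, d_{X_NP})` is not a quasi-isometry; equivalently,
`X_NP ≼ X_P` but not `X_P ≼ X_NP`; equivalently, the (finite) distances `d_{X_P}(1, g)`,
`g ∈ X_NP`, are unbounded. -/
theorem result {S : Type*} [Fintype S] (M : CoxeterMatrix S) [Finite M.Group]
    (hirr : (coxGraph M).Connected) (hrank : 3 ≤ Fintype.card S) :
    ¬ IdIsQuasiIsometry (XP M) (XNP M) ∧
    (Preceq (XNP M) (XP M) ∧ ¬ Preceq (XP M) (XNP M)) ∧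
    ∀ k : ℕ, ∃ g ∈ XNP M, (k : ℕ∞) < wordDist (XP M) 1 g ∧ wordDist (XP M) 1 g < ⊤ := by
  classical
  have key : ∀ k : ℕ, ∃ g ∈ XNP M, (k : ℕ∞) < wordDist (XP M) 1 g ∧
      wordDist (XP M) 1 g < ⊤ := by
    intro k
    obtain ⟨g, hg, hgk⟩ := main_unbounded M hirr hrank k
    rw [← wordDist_one] at hgk
    refine ⟨g, hg, hgk, ?_⟩
    rw [wordDist_one]
    exact wordLength_lt_top (closure_XP M (by omega)) g
  refine ⟨?_, ⟨⟨1, fun y hy => ?_⟩, ?_⟩, key⟩
  · rintro ⟨C, hC⟩
    obtain ⟨g, hg, hgk, -⟩ := key (2 * C)
    have h1 := (hC 1 g).2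
    have h2 : wordDist (XNP M) 1 g ≤ 1 := by
      rw [wordDist_one]
      exact wordLength_of_mem hg
    have h3 : (C : ℕ∞) * wordDist (XNP M) 1 g + C ≤ (C : ℕ∞) * 1 + C := by
      gcongr
    have h4 : (C : ℕ∞) * 1 + C = ((2 * C : ℕ) : ℕ∞) := by
      rw [mul_one, two_mul]
      push_cast
      rfl
    rw [h4] at h3
    exact absurd (h1.trans h3) (not_le.mpr hgk)
  · rw [wordDist_one]
    exact_mod_cast wordLength_of_mem (XP_sub_XNP M (by omega) hy)
  · rintro ⟨C, hC⟩
    obtain ⟨g, hg, hgk, -⟩ := key C
    exact absurd (hC g hg) (not_le.mpr hgk)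

end Pool.Agent.Results.MP_5d3202_gt.ParabolicsVsNormalizers
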